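import Pool.Agent.Run7.h123.Induct

open Set Topology Cardinal TopologicalSpace

universe u

/-- Let `X` be a Corson compact space: a compact Hausdorff space embedded by `φ` into a power
`Γ → ℝ` of the real line so that every point has only countably many nonzero coordinates. Suppose
that every closed subset of `X` is homeomorphic to a clopen subset, and that `X` has a base `𝓑`
such that every regular cardinal `c` with `𝔠 < c ≤ #𝓑` is a successor cardinal (there is no weakly
inaccessible cardinal above the continuum and up to the weight). Then `X` is scattered. -/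
theorem Pool.Agent.Results.MP_77266e_gt.CorsonCompact.result
    {X : Type u} [TopologicalSpace X] [CompactSpace X] [T2Space X]
    {Γ : Type u} (φ : X → Γ → ℝ) (hφ : IsEmbedding φ)
    (hcount : ∀ x : X, {γ : Γ | φ x γ ≠ 0}.Countable)
    (hco : ∀ F : Set X, IsClosed F → ∃ U : Set X, IsClopen U ∧ Nonempty (F ≃ₜ U))
    (𝓑 : Set (Set X)) (h𝓑 : IsTopologicalBasis 𝓑)
    (hw : ∀ c : Cardinal.{u}, c.IsRegular → 𝔠 < c → c ≤ #𝓑 → ∃ d, c = Order.succ d) :
    ∀ S : Set X, S.Nonempty → ∃ x ∈ S, ∃ V : Set X, IsOpen V ∧ V ∩ S = {x} :=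
  fun _ hS => Run7.h123.corson_scattered hco (φ := φ) ⟨hφ, hcount⟩ h𝓑 hw hS
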