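import Pool.Agent.Run7.h123.Bridge

open Set Topology Cardinal

universe u

/-- Let `X` be a compact Hausdorff space in which every closed set is homeomorphic to a clopen
set, and let `P` be a nonempty perfect subset of `X` such that every nonempty perfect subset of
`P` contains a nonempty perfect set with a relative `G_δ` point. Then some perfect subset of `X`
contains a relatively discrete set of cardinality `𝔠`, and `X` has at least `𝔠` isolated
points. -/
theorem Pool.Agent.Results.MP_77266e_gt.ManyIsolatedPoints.result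
    {X : Type u} [TopologicalSpace X] [CompactSpace X] [T2Space X]
    (hco : ∀ F : Set X, IsClosed F → ∃ U : Set X, IsClopen U ∧ Nonempty (F ≃ₜ U))
    (P : Set X) (hP : Perfect P) (hne : P.Nonempty)
    (hG : ∀ Q : Set X, Q ⊆ P → Perfect Q → Q.Nonempty →
      ∃ Q' : Set X, Q' ⊆ Q ∧ Perfect Q' ∧ ∃ x ∈ Q', ∃ G : Set X, IsGδ G ∧ Q' ∩ G = {x}) :
    (∃ P' D : Set X, Perfect P' ∧ D ⊆ P' ∧ (∀ d ∈ D, ∃ V : Set X, IsOpen V ∧ V ∩ D = {d}) ∧
      #D = 𝔠) ∧
    ∃ I : Set X, (∀ z ∈ I, IsOpen ({z} : Set X)) ∧ #I = 𝔠 :=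
  Run7.h123.big_of_hasAttach hco ((Run7.h123.FCP.of_gδ hG).hasAttach hP hne)
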