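import Pool.Agent.Run7.h123.Count

open Set Topology Cardinal TopologicalSpace

universe u v

/-- Let `X` be a compact Hausdorff space in which every closed set is homeomorphic to a clopen
set. Assume that the weight of `X` is at most a cardinal `κ` with `κ ^ ℵ₀ < 2 ^ 𝔠`, that every
nonempty perfect set contains a nonempty perfect set having a relative `G_δ` point, and that
there is a continuous map `f` of `X` to a metrizable space such that, for some `l < 𝔠`, all
relatively discrete subsets of the fibres of `f` have at most `l` points.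
Then `X` is scattered. -/
theorem Pool.Agent.Results.MP_77266e_gt.SmallFibres.result
    {X : Type u} [TopologicalSpace X] [CompactSpace X] [T2Space X]
    {M : Type v} [TopologicalSpace M] [MetrizableSpace M]
    (hco : ∀ F : Set X, IsClosed F → ∃ U : Set X, IsClopen U ∧ Nonempty (F ≃ₜ U))
    (κ : Cardinal.{u}) (hκ : κ ^ ℵ₀ < 2 ^ 𝔠)
    (hw : ∃ 𝓑 : Set (Set X), IsTopologicalBasis 𝓑 ∧ #𝓑 ≤ κ)
    (hG : ∀ Q : Set X, Perfect Q → Q.Nonempty →
      ∃ Q' : Set X, Q' ⊆ Q ∧ Perfect Q' ∧ ∃ x ∈ Q', ∃ G : Set X, IsGδ G ∧ Q' ∩ G = {x})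
    (f : X → M) (hf : Continuous f) (l : Cardinal.{u}) (hl : l < 𝔠)
    (hfib : ∀ (m : M) (D : Set X), D ⊆ f ⁻¹' {m} →
      (∀ d ∈ D, ∃ V : Set X, IsOpen V ∧ V ∩ D = {d}) → #D ≤ l) :
    ∀ S : Set X, S.Nonempty → ∃ x ∈ S, ∃ V : Set X, IsOpen V ∧ V ∩ S = {x} := by
  intro S hS
  by_contra hcon
  have hS0 : Run7.h123.isoPts S = ∅ := by
    rw [eq_empty_iff_forall_notMem]
    intro x hx
    exact hcon ⟨x, Run7.h123.isoPts_subset _ hx, hx⟩
  have hP : Perfect (closure S) :=
    Run7.h123.perfect_iff'.2 ⟨isClosed_closure, Run7.h123.isoPts_closure_empty hS0⟩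
  have hFC : Run7.h123.FCP (closure S) := Run7.h123.FCP.of_gδ (fun Q _ hQ hne => hG Q hQ hne)
  obtain ⟨y, U, F, e, h⟩ := Run7.h123.exists_family hco (hFC.hasAttach hP hS.closure)
  -- every subset of the range of `y` is relatively discrete
  have hdisc : ∀ D : Set X, D ⊆ range y → ∀ d ∈ D, ∃ V : Set X, IsOpen V ∧ V ∩ D = {d} := by
    intro D hD d hd
    obtain ⟨B, rfl⟩ := hD hd
    refine ⟨U B, (h.hU B).2, ?_⟩
    apply Subset.antisymm
    · rintro z ⟨hz, hzD⟩
      obtain ⟨C, rfl⟩ := hD hzD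
      rw [h.eq_of_mem hz]; rfl
    · intro z hz
      rw [mem_singleton_iff.1 hz]
      exact ⟨h.hyU B, hd⟩
  obtain ⟨E₀, hE₀, hbij⟩ := exists_subset_bijOn (range y) f
  have hcardD : #(range y) = 𝔠 := by
    have := mk_range_eq_of_injective h.injective
    rw [Run7.h123.mk_set_nat, lift_continuum] at this
    rw [← lift_inj.{u, 0}, this, lift_continuum]
  have hE : 𝔠 ≤ #E₀ := by
    by_contra hlt
    rw [not_le] at hlt
    have h1 : range y ⊆ ⋃ x : E₀, (range y ∩ f ⁻¹' {f x}) := by
      rintro z hz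
      obtain ⟨x, hx, hxz⟩ := hbij.surjOn (mem_image_of_mem f hz)
      exact mem_iUnion.2 ⟨⟨x, hx⟩, hz, hxz.symm⟩
    have h2 : #(range y) ≤ #E₀ * l := by
      calc #(range y) ≤ #(⋃ x : E₀, (range y ∩ f ⁻¹' {f x}) : Set X) := mk_le_mk_of_subset h1
        _ ≤ Cardinal.sum (fun x : E₀ => #(range y ∩ f ⁻¹' {f x} : Set X)) :=
            mk_iUnion_le_sum_mk
        _ ≤ Cardinal.sum (fun _ : E₀ => l) :=
            sum_le_sum _ _ fun x => hfib (f x) _ inter_subset_right
              (hdisc _ inter_subset_left)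
        _ = #E₀ * l := by simp
    rw [hcardD] at h2
    exact absurd h2 (not_le.2 (mul_lt_of_lt aleph0_le_continuum hlt hl))
  -- pass to the range of `f`, which is compact and metrizable
  obtain ⟨𝓑, h𝓑, h𝓑κ⟩ := hw
  have hinf : ℵ₀ ≤ κ := by
    by_contra hlt
    rw [not_le] at hlt
    have hfin : 𝓑.Finite := by
      have : #𝓑 < ℵ₀ := h𝓑κ.trans_lt hlt
      exact lt_aleph0_iff_set_finite.1 this
    have hXfin : (range y).Finite := by
      have : Finite 𝓑 := hfin
      have hinj2 : Function.Injective (fun x : X => {b : 𝓑 | x ∈ (b : Set X)}) := by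
        intro x x' hxx'
        by_contra hne
        obtain ⟨b, hb, hxb, hbx'⟩ := h𝓑.exists_subset_of_mem_open
          (show x ∈ ({x'} : Set X)ᶜ from hne) isOpen_compl_singleton
        have : (⟨b, hb⟩ : 𝓑) ∈ {b : 𝓑 | x ∈ (b : Set X)} := hxb
        rw [show {b : 𝓑 | x ∈ (b : Set X)} = {b : 𝓑 | x' ∈ (b : Set X)} from hxx'] at this
        exact hbx' this rfl
      have : Finite X := Finite.of_injective _ hinj2
      exact toFinite _
    have : #(range y) < ℵ₀ := lt_aleph0_iff_set_finite.2 hXfin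
    rw [hcardD] at this
    exact absurd this (not_lt.2 aleph0_le_continuum)
  have : CompactSpace (range f) := isCompact_iff_compactSpace.1 (isCompact_range hf)
  let _ : MetricSpace (range f) := metrizableSpaceMetric (range f)
  have hg : Continuous (rangeFactorization f) := hf.subtype_mk _
  have hE₀inj : InjOn (rangeFactorization f) E₀ := by
    intro a ha b hb hab
    exact hbij.injOn ha hb (congrArg Subtype.val hab)
  have hpow := Run7.h123.two_power_le hco hg h𝓑 hinf h𝓑κ (hdisc E₀ hE₀) hE₀inj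
  have : (2 : Cardinal.{u}) ^ 𝔠 ≤ κ ^ ℵ₀ :=
    (power_le_power_left two_ne_zero hE).trans hpow
  exact absurd this (not_le.2 hκ)
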