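import Pool.Agent.Run7.h123.CovM

open Set Topology Cardinal TopologicalSpace

universe u

/-- Let `X` be a compact Hausdorff space in which every closed set is homeomorphic to a clopen
set. If `X` has a base of cardinality less than `cov(M)`, the least cardinality of a family of
meagre sets covering the Cantor space, then `X` is scattered. -/
theorem Pool.Agent.Results.MP_77266e_gt.WeightBelowCovM.result
    {X : Type u} [TopologicalSpace X] [CompactSpace X] [T2Space X]
    (hco : ∀ F : Set X, IsClosed F → ∃ U : Set X, IsClopen U ∧ Nonempty (F ≃ₜ U))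
    (𝓑 : Set (Set X)) (h𝓑 : IsTopologicalBasis 𝓑)
    (hw : #𝓑 < Cardinal.lift.{u, 0} (sInf {κ : Cardinal.{0} | ∃ 𝒩 : Set (Set (ℕ → Bool)),
      (∀ N ∈ 𝒩, IsMeagre N) ∧ ⋃₀ 𝒩 = Set.univ ∧ #𝒩 = κ})) :
    ∀ S : Set X, S.Nonempty → ∃ x ∈ S, ∃ V : Set X, IsOpen V ∧ V ∩ S = {x} := by
  intro S hS
  by_contra hcon
  have hS0 : Run7.h123.isoPts S = ∅ := by
    rw [eq_empty_iff_forall_notMem]
    intro x hx
    exact hcon ⟨x, Run7.h123.isoPts_subset _ hx, hx⟩
  have hP : Perfect (closure S) :=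
    Run7.h123.perfect_iff'.2 ⟨isClosed_closure, Run7.h123.isoPts_closure_empty hS0⟩
  have hw' : #𝓑 < Cardinal.lift.{u, 0} Run7.h123.covM := hw
  have hFC : Run7.h123.FCP (closure S) := Run7.h123.FCP.of_gδ
    (fun Q _ hQ hne => Run7.h123.exists_gδ_of_covM h𝓑 hw' hQ hne)
  obtain ⟨-, I, hI, hIc⟩ :=
    Run7.h123.big_of_hasAttach hco (hFC.hasAttach hP hS.closure)
  -- every isolated point gives a member of the base
  have h1 : ∀ z : I, ({(z : X)} : Set X) ∈ 𝓑 := by
    rintro ⟨z, hz⟩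
    obtain ⟨b, hb, hzb, hbz⟩ := h𝓑.exists_subset_of_mem_open (mem_singleton z) (hI z hz)
    have : b = {z} := Subset.antisymm hbz (singleton_subset_iff.2 hzb)
    rwa [← this]
  have h2 : #I ≤ #𝓑 := by
    apply mk_le_of_injective (f := fun z : I => (⟨{(z : X)}, h1 z⟩ : 𝓑))
    intro z w hzw
    have := congrArg Subtype.val hzw
    exact Subtype.ext (singleton_injective this)
  rw [hIc] at h2
  have h3 : Cardinal.lift.{u, 0} Run7.h123.covM ≤ 𝔠 := by
    rw [← lift_continuum.{u, 0}]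
    exact lift_le.2 Run7.h123.covM_le_continuum
  exact absurd (h2.trans_lt hw') (not_lt.2 h3)
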